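import Pool.Agent.H47.B1.M04

/-!
The Good-Churchhouse law `V(X;H) ~ H/ζ(2)` fails, unconditionally, for suitable windows `H(X)` of exact order
`X / g(X)`, for every slowly growing function `g` (up to `(log log X)^(1-ε)`).
-/

set_option autoImplicit false

namespace Pool.Agent.Results.MP_0575cc_nt.LargeWindowFailure

open Filter Topology

/-- `M x H` is the sum of `μ(n)` over the integers `n` with `|n - x| < H / 2`
(written exactly as in the frozen statement S15903). -/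
noncomputable def M (x H : ℝ) : ℝ :=
  ∑ n ∈ (Finset.range (⌈x + H⌉₊ + 1)).filter (fun n : ℕ => |(n : ℝ) - x| < H / 2),
    ((ArithmeticFunction.moebius n : ℤ) : ℝ)

/-- The variance `V(X;H) = (1/X) ∫_X^{2X} M(x;H)^2 dx`. -/
noncomputable def V (X H : ℝ) : ℝ := (1 / X) * ∫ x in X..2 * X, (M x H) ^ 2

/-- `g` is eventually nondecreasing, tends to infinity, satisfies `g(2X) ≤ 2 g(X)` for large `X`, and
`g(X) ≤ (log log X)^(1-ε)` for some `ε > 0` and all large `X`. -/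
structure Slow (g : ℝ → ℝ) : Prop where
  mono : ∃ X₁ : ℝ, MonotoneOn g (Set.Ici X₁)
  lim : Tendsto g atTop atTop
  dbl : ∀ᶠ X in atTop, g (2 * X) ≤ 2 * g X
  slow : ∃ ε : ℝ, 0 < ε ∧ ∀ᶠ X in atTop, g X ≤ (Real.log (Real.log X)) ^ (1 - ε)

theorem V_eq_V (X H : ℝ) : V X H = Pool.Agent.H56.GX.V X H := rfl

/-- violation of the two bounds -/
def Viol (c B X H : ℝ) : Prop := V X H < c * H ∨ B * H < V X H

/-- reduction to regular functions -/
theorem exists_reg (g : ℝ → ℝ) (h : Slow g) : ∃ (g' : ℝ → ℝ) (θ X₁ X₂ : ℝ),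
    Pool.Agent.H82.GY.Reg g' ∧ Tendsto g' atTop atTop ∧ 0 ≤ θ ∧ θ < 1 ∧
      (∀ X : ℝ, X₁ ≤ X → g' X ≤ (Real.log (Real.log X)) ^ θ) ∧ ∀ X : ℝ, X₂ ≤ X → g' X = g X := by
  obtain ⟨X₀, hm⟩ := h.mono
  obtain ⟨ε, hε, hs⟩ := h.slow
  have hll : ∀ᶠ X : ℝ in atTop, 1 ≤ Real.log (Real.log X) :=
    (Real.tendsto_log_atTop.comp Real.tendsto_log_atTop).eventually_ge_atTop 1
  obtain ⟨X₁, hX₁⟩ := eventually_atTop.1 ((((h.lim.eventually_ge_atTop 1).and h.dbl).and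
    (hs.and hll)).and (eventually_ge_atTop (max X₀ 1)))
  have hX0 : X₀ ≤ X₁ := (le_max_left _ _).trans (hX₁ X₁ le_rfl).2
  have hX1 : 1 ≤ X₁ := (le_max_right _ _).trans (hX₁ X₁ le_rfl).2
  have hmono : ∀ a b : ℝ, X₁ ≤ a → a ≤ b → g a ≤ g b := fun a b ha hab =>
    hm (Set.mem_Ici.2 (hX0.trans ha)) (Set.mem_Ici.2 (hX0.trans (ha.trans hab))) hab
  refine ⟨fun X => g (max X X₁), max (1 - ε) 0, X₁, X₁, ⟨?_, ?_, ?_⟩, ?_, le_max_right _ _, ?_, ?_, ?_⟩
  · intro a b hab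
    exact hmono _ _ (le_max_right _ _) (max_le_max_right _ hab)
  · intro X
    exact (hX₁ (max X X₁) (le_max_right _ _)).1.1.1
  · intro X
    show g (max (2 * X) X₁) ≤ 2 * g (max X X₁)
    rcases le_total X₁ X with hX | hX
    · rw [max_eq_left hX, max_eq_left (by linarith)]
      exact (hX₁ X hX).1.1.2
    · rw [max_eq_right hX]
      refine le_trans (hmono _ (2 * X₁) (le_max_right _ _) ?_) (hX₁ X₁ le_rfl).1.1.2
      exact max_le (by linarith) (by linarith)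
  · exact h.lim.comp (tendsto_atTop_mono (fun X => le_max_left X X₁) tendsto_id)
  · exact max_lt (by linarith) (by norm_num)
  · intro X hX
    show g (max X X₁) ≤ _
    rw [max_eq_left hX]
    obtain ⟨⟨_, h2, h3⟩, _⟩ := hX₁ X hX
    exact h2.trans (Real.rpow_le_rpow_of_exponent_le h3 (le_max_left _ _))
  · intro X hX
    show g (max X X₁) = g X
    rw [max_eq_left hX]

/-- the main step: violations at arbitrarily large scales -/
theorem first (c B : ℝ) (hc : 0 < c) (hB : 0 < B) : ∃ κ : ℝ, 0 < κ ∧ κ ≤ 1 ∧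
    ∀ g : ℝ → ℝ, Slow g → ∀ X₀ : ℝ, ∃ X H : ℝ, X₀ ≤ X ∧ κ * X / g X ≤ H ∧ H ≤ X / g X ∧
      Viol c B X H := by
  obtain ⟨κ, hκ, hκ1, hmain⟩ := Pool.Agent.H82.GY.no_hyp c B hc hB
  refine ⟨κ, hκ, by linarith, ?_⟩
  intro g hg X₀
  by_contra hcon
  push Not at hcon
  obtain ⟨g', θ, X₁, X₂, h1, h2, h3, h4, h5, h6⟩ := exists_reg g hg
  refine hmain g' θ X₁ h1 h2 h3 h4 h5 (max X₀ X₂) ?_
  intro X H hX hH1 hH2
  rw [h6 X ((le_max_right _ _).trans hX)] at hH1 hH2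
  have h7 := hcon X H ((le_max_left _ _).trans hX) hH1 hH2
  unfold Viol at h7
  push Not at h7
  exact h7

/-- eventual positivity facts -/
theorem pos_of_slow (g : ℝ → ℝ) (hg : Slow g) : ∀ᶠ X in atTop, (1 : ℝ) ≤ g X ∧ 1 ≤ X :=
  (hg.lim.eventually_ge_atTop 1).and (eventually_ge_atTop 1)

/-- a window function of exact order `X / g(X)` -/
theorem second (c B : ℝ) (hc : 0 < c) (hB : 0 < B) : ∃ κ : ℝ, 0 < κ ∧
    ∀ g : ℝ → ℝ, Slow g → ∃ H : ℝ → ℝ,
      (∀ᶠ X in atTop, κ * X / g X ≤ H X ∧ H X ≤ X / g X) ∧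
      ¬ ∀ᶠ X in atTop, c * H X ≤ V X (H X) ∧ V X (H X) ≤ B * H X := by
  classical
  obtain ⟨κ, hκ, hκ1, hmain⟩ := first c B hc hB
  refine ⟨κ, hκ, fun g hg => ?_⟩
  refine ⟨fun X => if h : ∃ H : ℝ, κ * X / g X ≤ H ∧ H ≤ X / g X ∧ Viol c B X H then h.choose
    else X / g X, ?_, ?_⟩
  · filter_upwards [pos_of_slow g hg] with X hX
    obtain ⟨h1, h2⟩ := hX
    split_ifs with h
    · exact ⟨h.choose_spec.1, h.choose_spec.2.1⟩
    · refine ⟨?_, le_rfl⟩
      exact div_le_div_of_nonneg_right (by nlinarith) (by linarith)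
  · intro hev
    obtain ⟨N, hN⟩ := eventually_atTop.1 hev
    obtain ⟨X, H, hX, hH1, hH2, hV⟩ := hmain g hg N
    have hex : ∃ H : ℝ, κ * X / g X ≤ H ∧ H ≤ X / g X ∧ Viol c B X H := ⟨H, hH1, hH2, hV⟩
    have h1 := hN X hX
    simp only [dif_pos hex] at h1
    rcases hex.choose_spec.2.2 with h2 | h2
    · linarith [h1.1]
    · linarith [h1.2]

/-- the two bounds hold eventually if the law holds -/
theorem bounds_of_law (g H : ℝ → ℝ) (hg : Slow g) (κ : ℝ) (hκ : 0 < κ)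
    (hH : ∀ᶠ X in atTop, κ * X / g X ≤ H X)
    (hT : Tendsto (fun X => V X (H X) / (H X / (Real.pi ^ 2 / 6))) atTop (𝓝 1)) :
    ∀ᶠ X in atTop, 1 / 2 / (Real.pi ^ 2 / 6) * H X ≤ V X (H X) ∧
      V X (H X) ≤ 2 / (Real.pi ^ 2 / 6) * H X := by
  have hz : (0 : ℝ) < Real.pi ^ 2 / 6 := by positivity
  filter_upwards [hH, pos_of_slow g hg,
    hT.eventually (lt_mem_nhds (show (1 / 2 : ℝ) < 1 by norm_num)),
    hT.eventually (gt_mem_nhds (show (1 : ℝ) < 2 by norm_num))] with X e1 e2 e4 e5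
  have hg0 : 0 < g X := by linarith [e2.1]
  have hX0 : 0 < X := by linarith [e2.2]
  have hH0 : 0 < H X := lt_of_lt_of_le (by positivity) e1
  have hH' : 0 < H X / (Real.pi ^ 2 / 6) := div_pos hH0 hz
  rw [lt_div_iff₀ hH'] at e4
  rw [div_lt_iff₀ hH'] at e5
  constructor
  · calc 1 / 2 / (Real.pi ^ 2 / 6) * H X = 1 / 2 * (H X / (Real.pi ^ 2 / 6)) := by ring
      _ ≤ _ := e4.le
  · calc V X (H X) ≤ 2 * (H X / (Real.pi ^ 2 / 6)) := e5.le
      _ = 2 / (Real.pi ^ 2 / 6) * H X := by ring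

/-- the law fails for a window function of exact order `X / g(X)` -/
theorem law : ∃ κ : ℝ, 0 < κ ∧ ∀ g : ℝ → ℝ, Slow g → ∃ H : ℝ → ℝ,
      (∀ᶠ X in atTop, κ * X / g X ≤ H X ∧ H X ≤ X / g X) ∧
      ¬ Tendsto (fun X => V X (H X) / (H X / (Real.pi ^ 2 / 6))) atTop (𝓝 1) := by
  obtain ⟨κ, hκ, hmain⟩ := second (1 / 2 / (Real.pi ^ 2 / 6)) (2 / (Real.pi ^ 2 / 6))
    (by positivity) (by positivity)
  refine ⟨κ, hκ, fun g hg => ?_⟩
  obtain ⟨H, h1, h2⟩ := hmain g hg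
  exact ⟨H, h1, fun hT => h2 (bounds_of_law g H hg κ hκ (h1.mono fun X hX => hX.1) hT)⟩

/-- slightly smaller windows: no two constants work -/
theorem third (g ω : ℝ → ℝ) (hg : Slow g) (hω : Tendsto ω atTop atTop) : ∃ H : ℝ → ℝ,
      (∀ᶠ X in atTop, X / (ω X * g X) ≤ H X ∧ H X ≤ X / g X) ∧
      ∀ c B : ℝ, 0 < c → ¬ ∀ᶠ X in atTop, c * H X ≤ V X (H X) ∧ V X (H X) ≤ B * H X := by
  classical
  set P : ℝ → ℕ → Prop := fun X k => ∃ H : ℝ, X / (ω X * g X) ≤ H ∧ H ≤ X / g X ∧ 0 < H ∧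
    Viol (1 / ((k : ℝ) + 1)) ((k : ℝ) + 1) X H with hP
  set K : ℝ → ℕ := fun X => Nat.findGreatest (P X) ⌈X⌉₊ with hK
  have hk : ∀ (k : ℕ) (N : ℝ), ∃ X : ℝ, N ≤ X ∧ P X k := by
    intro k N
    obtain ⟨κ, hκ, hκ1, hmain⟩ := first (1 / ((k : ℝ) + 1)) ((k : ℝ) + 1) (by positivity)
      (by positivity)
    obtain ⟨N', hN'⟩ := eventually_atTop.1 ((hω.eventually_ge_atTop (1 / κ)).and (pos_of_slow g hg))
    obtain ⟨X, H, hX, hH1, hH2, hV⟩ := hmain g hg (max N N')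
    obtain ⟨e1, e2, e3⟩ := hN' X ((le_max_right _ _).trans hX)
    have hg0 : 0 < g X := by linarith
    have hX0 : 0 < X := by linarith
    have hω0 : 0 < ω X := lt_of_lt_of_le (by positivity) e1
    refine ⟨X, (le_max_left _ _).trans hX, H, le_trans ?_ hH1, hH2,
      lt_of_lt_of_le (by positivity) hH1, hV⟩
    rw [div_le_iff₀ hκ] at e1
    rw [div_le_div_iff₀ (by positivity) hg0]
    calc X * g X = 1 * (X * g X) := (one_mul _).symm
      _ ≤ (ω X * κ) * (X * g X) := mul_le_mul_of_nonneg_right e1 (by positivity)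
      _ = κ * X * (ω X * g X) := by ring
  refine ⟨fun X => if h : P X (K X) then h.choose else X / g X, ?_, ?_⟩
  · filter_upwards [pos_of_slow g hg, hω.eventually_ge_atTop 1] with X hX hX'
    obtain ⟨h1, h2⟩ := hX
    split_ifs with h
    · exact ⟨h.choose_spec.1, h.choose_spec.2.1⟩
    · refine ⟨?_, le_rfl⟩
      apply div_le_div_of_nonneg_left (by linarith) (by linarith)
      nlinarith
  · intro c B hc hev
    obtain ⟨N, hN⟩ := eventually_atTop.1 hev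
    obtain ⟨k, hk1⟩ := exists_nat_ge (max (1 / c) B)
    have hkc : 1 / c ≤ k := (le_max_left _ _).trans hk1
    have hkB : B ≤ k := (le_max_right _ _).trans hk1
    obtain ⟨X, hX, hPX⟩ := hk k (max N (k : ℝ))
    have hle : k ≤ ⌈X⌉₊ := by
      have h1 : (k : ℝ) ≤ X := (le_max_right _ _).trans hX
      have h2 : (k : ℝ) ≤ (⌈X⌉₊ : ℝ) := h1.trans (Nat.le_ceil X)
      exact_mod_cast h2
    have h3 : P X (K X) := Nat.findGreatest_spec hle hPX
    have h4 : k ≤ K X := Nat.le_findGreatest hle hPX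
    have h4' : (k : ℝ) ≤ K X := by exact_mod_cast h4
    have h5 := hN X ((le_max_left _ _).trans hX)
    simp only [dif_pos h3] at h5
    obtain ⟨_, _, h6, h7⟩ := h3.choose_spec
    have hk0 : (0 : ℝ) ≤ k := Nat.cast_nonneg k
    rcases h7 with h7 | h7
    · have h8 : 1 / ((K X : ℝ) + 1) ≤ c := by
        rw [div_le_iff₀ (by positivity)]
        rw [div_le_iff₀ hc] at hkc
        nlinarith
      have h9 := mul_le_mul_of_nonneg_right h8 h6.le
      linarith [h5.1]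
    · have h8 : B * h3.choose ≤ ((K X : ℝ) + 1) * h3.choose :=
        mul_le_mul_of_nonneg_right (by linarith) h6.le
      linarith [h5.2]

/-- **Unconditional failure of the Good-Churchhouse law for windows of order `X / g(X)`.**

(1) There is an absolute constant `κ > 0` such that for every `g` as in `Slow` there is a function `H(X)` with
`κ X / g(X) ≤ H(X) ≤ X / g(X)` for all large `X` for which `V(X;H(X)) / (H(X)/ζ(2))`, `ζ(2) = π²/6`, does not tend to `1`.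
(2) The same with any two constants `c, B > 0` instead of the law: `c H(X) ≤ V(X;H(X)) ≤ B H(X)` does not hold for all
large `X`; `κ` depends only on `c` and `B`.
(3) For every `g` as in `Slow` and every `ω → ∞` there is `H(X)` with `X / (ω(X) g(X)) ≤ H(X) ≤ X / g(X)` for all large `X` such
that `V(X;H(X)) / H(X)` is not eventually between any two positive constants. -/
theorem result :
    (∃ κ : ℝ, 0 < κ ∧ ∀ g : ℝ → ℝ, Slow g → ∃ H : ℝ → ℝ,
      (∀ᶠ X in atTop, κ * X / g X ≤ H X ∧ H X ≤ X / g X) ∧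
      ¬ Tendsto (fun X => V X (H X) / (H X / (Real.pi ^ 2 / 6))) atTop (𝓝 1)) ∧
    (∀ c B : ℝ, 0 < c → 0 < B → ∃ κ : ℝ, 0 < κ ∧ ∀ g : ℝ → ℝ, Slow g → ∃ H : ℝ → ℝ,
      (∀ᶠ X in atTop, κ * X / g X ≤ H X ∧ H X ≤ X / g X) ∧
      ¬ ∀ᶠ X in atTop, c * H X ≤ V X (H X) ∧ V X (H X) ≤ B * H X) ∧
    (∀ g ω : ℝ → ℝ, Slow g → Tendsto ω atTop atTop → ∃ H : ℝ → ℝ,
      (∀ᶠ X in atTop, X / (ω X * g X) ≤ H X ∧ H X ≤ X / g X) ∧
      ∀ c B : ℝ, 0 < c → ¬ ∀ᶠ X in atTop, c * H X ≤ V X (H X) ∧ V X (H X) ≤ B * H X) :=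
  ⟨law, second, third⟩

end Pool.Agent.Results.MP_0575cc_nt.LargeWindowFailure
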